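import Pool.Agent.Helper45.TW.SAa
import Pool.Agent.Helper9.M.FT
import Pool.Agent.SC.Cov
import Pool.Agent.SC.Levels
import Pool.Agent.SC.CoverLevels

/-!
# Project TW, block PX1: places of an arbitrary level
-/

set_option autoImplicit false

namespace Pool.Agent.TOW

open VC IntermediateField NumberField IsDedekindDomain Pool.Agent.SC Pool.Agent.L Pool.Agent.M

section px

variable {E K0 U : Type} [Field E] [Field K0] [Field U] [Algebra E U] [Algebra K0 U]

/-! ## Automorphisms and levels -/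

theorem inL59 (x : K0) : algebraMap K0 U x ∈ L0 E K0 (U := U) :=
  IntermediateField.subset_adjoin _ _ ⟨x, rfl⟩

theorem rMM59 {r : U} : r ∈ Pool.Agent.L.MM E K0 r :=
  IntermediateField.subset_adjoin _ _ (Or.inr rfl)

/-- automorphisms over `K0` preserve `M` -/
theorem map_MM59 {r : U} {h : K0} (hr : r ^ 2 = algebraMap K0 U h) {T : U ≃+* U}
    (hT : Au E K0 T) : ∀ z ∈ Pool.Agent.L.MM E K0 r, T z ∈ Pool.Agent.L.MM E K0 r := by
  intro z hz
  refine IntermediateField.adjoin_induction (p := fun z _ => T z ∈ Pool.Agent.L.MM E K0 r) E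
    ?_ ?_ ?_ ?_ ?_ hz
  · rintro x (⟨c, rfl⟩ | hx)
    · rw [hT.fixK]
      exact IntermediateField.subset_adjoin _ _ (Or.inl ⟨c, rfl⟩)
    · rw [Set.mem_singleton_iff.1 hx]
      have h1 : (T r) ^ 2 = r ^ 2 := by rw [← map_pow, hr, hT.fixK]
      rcases sq_eq_sq_iff_eq_or_eq_neg.1 h1 with h2 | h2
      · rw [h2]
        exact rMM59
      · rw [h2]
        exact neg_mem rMM59
  · intro e
    obtain ⟨e', he'⟩ := hT.presE e
    rw [he']
    exact (Pool.Agent.L.MM E K0 r).algebraMap_mem e'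
  · intro a b _ _ ha hb
    rw [map_add]
    exact add_mem ha hb
  · intro a _ ha
    rw [map_inv₀]
    exact inv_mem ha
  · intro a b _ _ ha hb
    rw [map_mul]
    exact mul_mem ha hb

theorem map_RX59 {r : U} {h : K0} (hr : r ^ 2 = algebraMap K0 U h) {T : U ≃+* U}
    (hT : Au E K0 T) {m : ℕ} {w : U} (hw : RX E K0 r m w) : RX E K0 r m (T w) :=
  ⟨(map_ne_zero T).2 hw.1, by rw [← map_pow]; exact map_MM59 hr hT _ hw.2⟩

theorem map_NX59 {r : U} {h : K0} (hr : r ^ 2 = algebraMap K0 U h) {T : U ≃+* U}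
    (hT : Au E K0 T) {m : ℕ} : ∀ z ∈ NX E K0 r m, T z ∈ NX E K0 r m := by
  intro z hz
  refine IntermediateField.adjoin_induction (p := fun z _ => T z ∈ NX E K0 r m) E
    ?_ ?_ ?_ ?_ ?_ hz
  · rintro x (hx | hx)
    · exact MM_le_NX (map_MM59 hr hT x hx)
    · exact (map_RX59 hr hT hx).mem
  · intro e
    obtain ⟨e', he'⟩ := hT.presE e
    rw [he']
    exact (NX E K0 r m).algebraMap_mem e'
  · intro a b _ _ ha hb
    rw [map_add]
    exact add_mem ha hb
  · intro a _ ha
    rw [map_inv₀]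
    exact inv_mem ha
  · intro a b _ _ ha hb
    rw [map_mul]
    exact mul_mem ha hb

theorem L0_le_NX59 {r : U} {m : ℕ} : L0 E K0 (U := U) ≤ NX E K0 r m :=
  le_trans L0_le_MM MM_le_NX

/-- a level is generated over `L0` by finitely many elements -/
theorem fGL59 [IsAlgClosed E] [CharZero E] (hFT : StmtFT) {r : U}
    (hc : IsCover (Pool.Agent.L.MM E K0 r)) {m : ℕ} (hm : 0 < m) : FGL E K0 (NX E K0 r m) := by
  classical
  have hF := hc.ff
  obtain ⟨T, hT0, hT⟩ := hFT E (Pool.Agent.L.MM E K0 r) hF m hm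
  have hex : ∀ t : Pool.Agent.L.MM E K0 r, ∃ w : U, (∃ w' : U, w' ^ m = (t : U)) →
      w ^ m = (t : U) := by
    intro t
    by_cases h : ∃ w' : U, w' ^ m = (t : U)
    · obtain ⟨w, hw⟩ := h
      exact ⟨w, fun _ => hw⟩
    · exact ⟨1, fun h' => absurd h' h⟩
  choose g hg using hex
  refine ⟨insert r (T.image g), fun N hLN hZN => ?_⟩
  have hMN : Pool.Agent.L.MM E K0 r ≤ N := by
    refine IntermediateField.adjoin_le_iff.2 ?_
    rintro x (⟨c, rfl⟩ | hx)
    · exact hLN (inL59 c)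
    · rw [Set.mem_singleton_iff.1 hx]
      exact hZN _ (Finset.mem_insert_self _ _)
  refine IntermediateField.adjoin_le_iff.2 ?_
  rintro w (hw | hw)
  · exact hMN hw
  · obtain ⟨hw0, hwM⟩ := hw
    obtain ⟨f, hf⟩ : ∃ f : Pool.Agent.L.MM E K0 r, (f : U) = w ^ m := ⟨⟨w ^ m, hwM⟩, rfl⟩
    have hf0 : f ≠ 0 := by
      rintro rfl
      exact pow_ne_zero m hw0 hf.symm
    obtain ⟨t, ht, l, hl⟩ := hT f hf0 fun P => hc.dvd_ord le_rfl hF hf0 hf.symm P
    have ht0 := hT0 t ht
    have hl0 : l ≠ 0 := by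
      rintro rfl
      rw [zero_pow hm.ne', mul_zero] at hl
      exact hf0 hl
    have hlU : (l : U) ≠ 0 := fun h => hl0 (Subtype.ext h)
    have htU : (t : U) ≠ 0 := fun h => ht0 (Subtype.ext h)
    have h1 : (w / (l : U)) ^ m = (t : U) := by
      rw [div_pow, ← hf, hl]
      show ((t : U) * (l : U) ^ m) / (l : U) ^ m = t
      rw [mul_div_cancel_right₀ _ (pow_ne_zero m hlU)]
    have h2 := hg t ⟨_, h1⟩
    have hg0 : g t ≠ 0 := by
      intro h0
      rw [h0, zero_pow hm.ne'] at h2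
      exact htU h2.symm
    have h3 : (w / (l : U) / g t) ^ m = 1 := by
      rw [div_pow, h1, h2, div_self htU]
    obtain ⟨e, he⟩ := const_of_pow (E := E) hm h3
    have h4 : w = algebraMap E U e * g t * l := by
      rw [he]
      field_simp
    rw [h4]
    exact mul_mem (mul_mem (IntermediateField.algebraMap_mem _ _)
      (hZN _ (Finset.mem_insert_of_mem (Finset.mem_image_of_mem g ht)))) (hMN l.2)

/-- a subfield over which a function field is algebraic -/
theorem ff_le59 {L N N' : IntermediateField E U} [Algebra.IsAlgebraic L U] (hLN : L ≤ N)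
    (hle : N ≤ N') (hN' : IsFunctionField E N') : IsFunctionField E N := by
  let aLN : Algebra L N := (IntermediateField.inclusion hLN).toRingHom.toAlgebra
  have sLN : IsScalarTower L N U := IsScalarTower.of_algebraMap_eq fun x => rfl
  have hNU : Algebra.IsAlgebraic N U := Algebra.IsAlgebraic.tower_top (K := L) N
  let aNN : Algebra N N' := (IntermediateField.inclusion hle).toRingHom.toAlgebra
  have sNN : IsScalarTower N N' U := IsScalarTower.of_algebraMap_eq fun x => rfl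
  have sEN : IsScalarTower E N N' := IsScalarTower.of_algebraMap_eq fun x => rfl
  have h2 : Algebra.IsAlgebraic N N' := ⟨fun x => by
    have h3 : IsAlgebraic N (algebraMap N' U x) := Algebra.IsAlgebraic.isAlgebraic _
    exact (isAlgebraic_algebraMap_iff (algebraMap N' U).injective).1 h3⟩
  exact isFunctionField_of_algebraic (M := N) hN'

/-- a finitely generated level is a function field -/
theorem ff59 (ff : IsFunctionField E (L0 E K0 (U := U)))
    [Algebra.IsAlgebraic (L0 E K0 (U := U)) U] {N : IntermediateField E U}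
    (hLN : L0 E K0 (U := U) ≤ N) (hF : FGL E K0 N) : IsFunctionField E N := by
  obtain ⟨Z, hZ⟩ := hF
  have hfin : FiniteDimensional (L0 E K0 (U := U))
      (IntermediateField.adjoin (L0 E K0 (U := U)) (Z : Set U)) :=
    IntermediateField.finiteDimensional_adjoin (fun z _ => Algebra.IsIntegral.isIntegral z)
  refine ff_le59 hLN (hZ _ (fun x hx => ?_) (fun z hz => ?_)) (isFunctionField_restrictScalars ff
    (IntermediateField.adjoin (L0 E K0 (U := U)) (Z : Set U)))
  · exact (IntermediateField.adjoin (L0 E K0 (U := U)) (Z : Set U)).algebraMap_mem ⟨x, hx⟩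
  · exact IntermediateField.subset_adjoin (L0 E K0 (U := U)) (Z : Set U) hz

/-! ## Places -/

/-- a valuation ring of `U` over a place of a level -/
theorem over59 {N : IntermediateField E U} (Q : Place E N) :
    ∃ W : Place E U, ∀ (x : U) (hx : x ∈ N), (⟨x, hx⟩ : N) ∈ Q.ring ↔ x ∈ W.ring := by
  obtain ⟨W, hW⟩ := _root_.SC.exists_place_over (K := E) (M := N) (N := U) Q
  exact ⟨W, fun x hx => (hW ⟨x, hx⟩).symm⟩

/-- conjugation of the places of a level over a subfield -/
theorem conj59 {L : IntermediateField E U} [IsGalois L U] {N : IntermediateField E U}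
    (hLN : L ≤ N) (Q Q' : Place E N)
    (h : ∀ (x : U) (hx : x ∈ L), (⟨x, hLN hx⟩ : N) ∈ Q.ring ↔ (⟨x, hLN hx⟩ : N) ∈ Q'.ring) :
    ∃ T : U ≃+* U, (∀ x ∈ L, T x = x) ∧ Moves T N Q Q' := by
  obtain ⟨W, hW⟩ := over59 Q
  obtain ⟨W', hW'⟩ := over59 Q'
  obtain ⟨σ, hσ⟩ := exists_conj_val (L := L) W.ring W'.ring (fun c => by
    show (c : U) ∈ W.ring ↔ (c : U) ∈ W'.ring
    rw [← hW c (hLN c.2), ← hW' c (hLN c.2)]
    exact h c c.2)
  refine ⟨σ.toRingEquiv, fun x hx => σ.commutes ⟨x, hx⟩, fun x hx hx' => ?_⟩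
  rw [hW x hx, hW' _ hx']
  exact (hσ x).symm

/-- automorphisms over `L0` -/
theorem auE59 {T : U ≃+* U} (h : ∀ x ∈ L0 E K0 (U := U), T x = x) : AuE E K0 T :=
  ⟨fun x => h _ (inL59 x), fun e => h _ ((L0 E K0 (U := U)).algebraMap_mem e)⟩

/-- the place below -/
theorem below59 {N N' : IntermediateField E U} [Algebra.IsAlgebraic N U]
    (Q : Place E N') : ∃ b : Place E N, OverPl b Q := by
  obtain ⟨W, hW⟩ := over59 Q
  refine ⟨resPlace W.ring W.algebraMap_mem N (exists_notMem_of_algebraic W.ne_top), ?_⟩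
  intro x hx hx'
  exact (hW x hx').symm

/-- a place above -/
theorem above59 {N N' : IntermediateField E U} (hNN : N ≤ N') (b : Place E N) :
    ∃ Q : Place E N', OverPl b Q := by
  obtain ⟨W, hW⟩ := over59 b
  refine ⟨resPlace W.ring W.algebraMap_mem N' ?_, ?_⟩
  · obtain ⟨t, ht⟩ : ∃ t : N, t ∉ b.ring := by
      by_contra hcon
      push Not at hcon
      exact b.ne_top (eq_top_iff.mpr fun x _ => hcon x)
    exact ⟨t, hNN t.2, fun h1 => ht ((hW t t.2).2 h1)⟩
  · intro x hx hx'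
    exact hW x hx

/-- an automorphism over `M` which fixes a place of a level is trivial on it -/
theorem triv59 [IsAlgClosed E] [CharZero E] {r : U}
    (hc : IsCover (Pool.Agent.L.MM E K0 r)) {h : K0} (hr : r ^ 2 = algebraMap K0 U h)
    {m : ℕ} (hm : 0 < m) (Q : Place E (NX E K0 r m)) {T : U ≃+* U}
    (hT : AuE E K0 T) (hTr : T r = r) (hQ : Moves T _ Q Q) {w : U} (hw : RX E K0 r m w) :
    T w = w := by
  obtain ⟨W, hW⟩ := over59 Q
  have hgal : IsGalois (Pool.Agent.L.MM E K0 r) U := hc.gal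
  obtain ⟨μ, hμ, hval⟩ := hc.unr W.ring W.algebraMap_mem w
  have hw0 := hw.1
  have hμ0 : μ ≠ 0 := by
    rintro rfl
    rw [map_zero] at hval
    exact hw0 ((Valuation.zero_iff _).1 hval)
  set v : U := w / μ with hv
  have hv0 : v ≠ 0 := div_ne_zero hw0 hμ0
  have h5 : W.ring.valuation v = 1 := by
    rw [hv, map_div₀, hval]
    exact div_self ((Valuation.ne_zero_iff _).2 hμ0)
  have hvW : v ∈ W.ring := by
    rw [← W.ring.valuation_le_one_iff, h5]
  obtain ⟨c, hcv⟩ := exists_const_residue_abs (C := E) (M := Pool.Agent.L.MM E K0 r) (Ω := U)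
    hc.ff W.algebraMap_mem W.ne_top hvW
  have hvN : v ∈ NX E K0 r m := div_mem hw.mem (MM_le_NX hμ)
  have hvcN : v - algebraMap E U c ∈ NX E K0 r m :=
    sub_mem hvN ((NX E K0 r m).algebraMap_mem c)
  have hnon : W.ring.valuation (T (v - algebraMap E U c)) < 1 := by
    rw [← ValuationSubring.mem_nonunits_iff, ValuationSubring.mem_nonunits_iff_or] at hcv ⊢
    rcases hcv with h6 | h6
    · exact Or.inl (by rw [h6, map_zero])
    · right
      intro h7
      apply h6
      rw [← map_inv₀] at h7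
      have h8 := map_NX59 hr hT.au _ (inv_mem hvcN)
      rw [← hW _ (inv_mem hvcN), hQ _ _ h8, hW _ h8]
      exact h7
  have hwm : (T w / w) ^ m = 1 := by
    rw [div_pow, ← map_pow, hT.onMM hTr _ hw.2]
    exact div_self (pow_ne_zero m hw0)
  obtain ⟨ζ, hζ⟩ := const_of_pow (E := E) hm hwm
  have hζw : T w = algebraMap E U ζ * w := by rw [hζ, div_mul_cancel₀ _ hw0]
  have hav : T v = algebraMap E U ζ * v := by
    rw [hv, map_div₀, hζw, hT.onMM hTr _ hμ, mul_div_assoc]
  have hζ1 : ζ = 1 := by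
    by_contra hne
    have h6 : T (v - algebraMap E U c) - (v - algebraMap E U c) = algebraMap E U (ζ - 1) * v := by
      rw [map_sub, hT.fixE, hav, map_sub, map_one]
      ring
    have h7 : W.ring.valuation (algebraMap E U (ζ - 1) * v) < 1 := by
      rw [← h6]
      exact (Valuation.map_sub _ _ _).trans_lt (max_lt hnon hcv)
    rw [map_mul, h5, mul_one] at h7
    rw [← ValuationSubring.mem_nonunits_iff, ValuationSubring.mem_nonunits_iff_or] at h7
    rcases h7 with h8 | h8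
    · exact hne (sub_eq_zero.1 ((map_eq_zero _).1 h8))
    · apply h8
      rw [← map_inv₀]
      exact W.algebraMap_mem _
  rw [hζw, hζ1, map_one, one_mul]

/-! ## The quadratic extension `M / L0` -/

/-- the elements of `M` -/
theorem mem_MM59 {r : U} {h : K0} (hr : r ^ 2 = algebraMap K0 U h)
    (hr0 : r ∉ L0 E K0 (U := U)) {z : U} (hz : z ∈ Pool.Agent.L.MM E K0 r) :
    ∃ x ∈ L0 E K0 (U := U), ∃ y ∈ L0 E K0 (U := U), z = x + y * r := by
  have hr2 : r ^ 2 ∈ L0 E K0 (U := U) := by rw [hr]; exact inL59 h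
  refine IntermediateField.adjoin_induction
    (p := fun z _ => ∃ x ∈ L0 E K0 (U := U), ∃ y ∈ L0 E K0 (U := U), z = x + y * r) E
    ?_ ?_ ?_ ?_ ?_ hz
  · rintro x (⟨c, rfl⟩ | hx)
    · exact ⟨_, inL59 c, 0, zero_mem _, by ring⟩
    · rw [Set.mem_singleton_iff.1 hx]
      exact ⟨0, zero_mem _, 1, one_mem _, by ring⟩
  · intro e
    exact ⟨_, (L0 E K0 (U := U)).algebraMap_mem e, 0, zero_mem _, by ring⟩
  · rintro a b _ _ ⟨x, hx, y, hy, rfl⟩ ⟨x', hx', y', hy', rfl⟩
    exact ⟨x + x', add_mem hx hx', y + y', add_mem hy hy', by ring⟩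
  · rintro a _ ⟨x, hx, y, hy, rfl⟩
    by_cases h0 : x ^ 2 - y ^ 2 * r ^ 2 = 0
    · have h1 : x ^ 2 = (y * r) ^ 2 := by rw [mul_pow]; exact sub_eq_zero.1 h0
      have h2 : y = 0 := by
        by_contra hy0
        rcases sq_eq_sq_iff_eq_or_eq_neg.1 h1 with h3 | h3
        · apply hr0
          have h4 : r = x / y := by rw [h3]; field_simp
          rw [h4]
          exact div_mem hx hy
        · apply hr0
          have h4 : r = -(x / y) := by rw [h3]; field_simp
          rw [h4]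
          exact neg_mem (div_mem hx hy)
      exact ⟨x⁻¹, inv_mem hx, 0, zero_mem _, by rw [h2]; ring⟩
    · have h3 : (x + y * r) * (x - y * r) = x ^ 2 - y ^ 2 * r ^ 2 := by ring
      have h4 : x + y * r ≠ 0 := by
        intro h5
        rw [h5, zero_mul] at h3
        exact h0 h3.symm
      have hD : x ^ 2 - y ^ 2 * r ^ 2 ∈ L0 E K0 (U := U) :=
        sub_mem (pow_mem hx 2) (mul_mem (pow_mem hy 2) hr2)
      refine ⟨x / (x ^ 2 - y ^ 2 * r ^ 2), div_mem hx hD, -(y / (x ^ 2 - y ^ 2 * r ^ 2)),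
        neg_mem (div_mem hy hD), ?_⟩
      rw [inv_eq_iff_eq_inv, ← one_div, eq_div_iff ?_]
      · have h5 : x / (x ^ 2 - y ^ 2 * r ^ 2) + -(y / (x ^ 2 - y ^ 2 * r ^ 2)) * r =
            (x - y * r) / (x ^ 2 - y ^ 2 * r ^ 2) := by ring
        rw [h5, mul_div_assoc', h3]
        exact div_self h0
      · intro h5
        have h6 : (x - y * r) / (x ^ 2 - y ^ 2 * r ^ 2) = 0 := by rw [← h5]; ring
        rcases div_eq_zero_iff.1 h6 with h7 | h7
        · rw [h7, mul_zero] at h3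
          exact h0 h3.symm
        · exact h0 h7
  · rintro a b _ _ ⟨x, hx, y, hy, rfl⟩ ⟨x', hx', y', hy', rfl⟩
    refine ⟨x * x' + y * y' * r ^ 2, add_mem (mul_mem hx hx') (mul_mem (mul_mem hy hy') hr2),
      x * y' + y * x', add_mem (mul_mem hx hy') (mul_mem hy hx'), by ring⟩

/-- the places over a branch point: no cancellation -/
theorem mem_iff59 [IsAlgClosed E] (ff : IsFunctionField E (L0 E K0 (U := U))) {r : U} {h : K0}
    (hr : r ^ 2 = algebraMap K0 U h) (hr0 : r ∉ L0 E K0 (U := U))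
    {b : Place E (L0 E K0 (U := U))} (hb : BPl h b) {W : Place E U}
    (hW : ∀ (x : U) (hx : x ∈ L0 E K0 (U := U)), (⟨x, hx⟩ : L0 E K0 (U := U)) ∈ b.ring ↔ x ∈ W.ring)
    {x y : U} (hx : x ∈ L0 E K0 (U := U)) (hy : y ∈ L0 E K0 (U := U)) :
    x + y * r ∈ W.ring ↔ x ∈ W.ring ∧ y ^ 2 * r ^ 2 ∈ W.ring := by
  have hsq : y * r ∈ W.ring ↔ y ^ 2 * r ^ 2 ∈ W.ring := by
    rw [← mul_pow]
    refine ⟨fun h1 => pow_mem h1 2, fun h1 => ?_⟩
    rcases W.ring.mem_or_inv_mem (y * r) with h2 | h2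
    · exact h2
    · by_cases h0 : y * r = 0
      · rw [h0]
        exact zero_mem _
      · have h3 : y * r = (y * r) ^ 2 * (y * r)⁻¹ := by field_simp
        rw [h3]
        exact mul_mem h1 h2
  rw [← hsq]
  by_cases hy0 : y = 0
  · rw [hy0, zero_mul, add_zero]
    exact ⟨fun h1 => ⟨h1, zero_mem _⟩, fun h1 => h1.1⟩
  by_cases hx0 : x = 0
  · rw [hx0, zero_add]
    exact ⟨fun h1 => ⟨zero_mem _, h1⟩, fun h1 => h1.2⟩
  have hrn : r ≠ 0 := by
    rintro rfl
    exact hr0 (zero_mem _)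
  have hne : W.ring.valuation x ≠ W.ring.valuation (y * r) := by
    intro heq
    apply hb
    obtain ⟨x', hx'⟩ : ∃ x' : L0 E K0 (U := U), (x' : U) = x := ⟨⟨x, hx⟩, rfl⟩
    obtain ⟨y', hy'⟩ : ∃ y' : L0 E K0 (U := U), (y' : U) = y := ⟨⟨y, hy⟩, rfl⟩
    have hx0' : x' ≠ 0 := by
      rintro rfl
      exact hx0 hx'.symm
    have hy0' : y' ≠ 0 := by
      rintro rfl
      exact hy0 hy'.symm
    have hh : ((inL0 h : L0 E K0 (U := U)) : U) = r ^ 2 := hr.symm
    have hh0 : (inL0 h : L0 E K0 (U := U)) ≠ 0 := by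
      intro h0
      rw [h0] at hh
      exact pow_ne_zero 2 hrn hh.symm
    have hd0 : y' ^ 2 * inL0 h ≠ 0 := mul_ne_zero (pow_ne_zero 2 hy0') hh0
    have hu0 : x' ^ 2 / (y' ^ 2 * inL0 h) ≠ 0 := div_ne_zero (pow_ne_zero 2 hx0') hd0
    have hval : W.ring.valuation ((x' ^ 2 / (y' ^ 2 * inL0 h) : L0 E K0 (U := U)) : U) = 1 := by
      have h1 : ((x' ^ 2 / (y' ^ 2 * inL0 h) : L0 E K0 (U := U)) : U) = (x / (y * r)) ^ 2 := by
        rw [div_pow, mul_pow, ← hx', ← hy', ← hh]
        rfl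
      rw [h1, map_pow, map_div₀, heq, div_self, one_pow]
      rw [Valuation.ne_zero_iff]
      exact mul_ne_zero hy0 hrn
    have h2 := ord_zero_of_val_unit (N := L0 E K0 (U := U)) ff b (B := W.ring)
      (fun z => (hW z z.2).symm) hu0 hval
    rw [FF.ord_div ff b (pow_ne_zero 2 hx0') hd0, FF.ord_mul ff b (pow_ne_zero 2 hy0') hh0,
      FF.ord_pow ff b hx0', FF.ord_pow ff b hy0'] at h2
    exact ⟨ord b.ring x' - ord b.ring y', by push_cast at h2; linarith⟩
  rw [← W.ring.valuation_le_one_iff, Valuation.map_add_of_distinct_val _ hne, max_le_iff,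
    W.ring.valuation_le_one_iff, W.ring.valuation_le_one_iff]

/-- there is only one place of `M` over a branch point -/
theorem unique59 [IsAlgClosed E] (ff : IsFunctionField E (L0 E K0 (U := U))) {r : U} {h : K0}
    (hr : r ^ 2 = algebraMap K0 U h) (hr0 : r ∉ L0 E K0 (U := U))
    {b : Place E (L0 E K0 (U := U))} (hb : BPl h b) {W W' : Place E U}
    (hW : ∀ (x : U) (hx : x ∈ L0 E K0 (U := U)), (⟨x, hx⟩ : L0 E K0 (U := U)) ∈ b.ring ↔ x ∈ W.ring)
    (hW' : ∀ (x : U) (hx : x ∈ L0 E K0 (U := U)),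
      (⟨x, hx⟩ : L0 E K0 (U := U)) ∈ b.ring ↔ x ∈ W'.ring)
    {z : U} (hz : z ∈ Pool.Agent.L.MM E K0 r) : z ∈ W.ring ↔ z ∈ W'.ring := by
  obtain ⟨x, hx, y, hy, rfl⟩ := mem_MM59 hr hr0 hz
  have hr2 : r ^ 2 ∈ L0 E K0 (U := U) := by rw [hr]; exact inL59 h
  have hyr : y ^ 2 * r ^ 2 ∈ L0 E K0 (U := U) := mul_mem (pow_mem hy 2) hr2
  rw [mem_iff59 ff hr hr0 hb hW hx hy, mem_iff59 ff hr hr0 hb hW' hx hy, ← hW x hx, ← hW' x hx,
    ← hW _ hyr, ← hW' _ hyr]

/-- some automorphism over `L0` moves `r` -/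
theorem exists_neg59 [IsGalois (L0 E K0 (U := U)) U] {r : U} {h : K0}
    (hr : r ^ 2 = algebraMap K0 U h) (hr0 : r ∉ L0 E K0 (U := U)) :
    ∃ T : U ≃+* U, AuE E K0 T ∧ T r = -r := by
  have h1 : ∃ σ : U ≃ₐ[L0 E K0 (U := U)] U, σ r ≠ r := by
    by_contra hcon
    push Not at hcon
    obtain ⟨z, hz⟩ := (InfiniteGalois.mem_range_algebraMap_iff_fixed r).2 hcon
    apply hr0
    rw [← hz]
    exact z.2
  obtain ⟨σ, hσ⟩ := h1
  have hE : AuE E K0 (σ.toRingEquiv : U ≃+* U) := auE59 fun x hx => σ.commutes ⟨x, hx⟩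
  refine ⟨σ.toRingEquiv, hE, ?_⟩
  have h2 : (σ r) ^ 2 = r ^ 2 := by
    rw [← map_pow, hr]
    exact hE.fixK h
  exact (sq_eq_sq_iff_eq_or_eq_neg.1 h2).resolve_left hσ

theorem moves_mul59 {N : IntermediateField E U} {T T' : U ≃+* U} {Q Q' Q'' : Place E N}
    (h1 : ∀ x ∈ N, T x ∈ N) (h : Moves T N Q Q') (h' : Moves T' N Q' Q'') :
    Moves (T' * T) N Q Q'' := by
  intro x hx hx'
  exact (h x hx (h1 x hx)).trans (h' (T x) (h1 x hx) hx')

/-- a place over a branch point is fixed by an automorphism which moves `r` -/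
theorem branch59 [IsAlgClosed E] [IsGalois (L0 E K0 (U := U)) U]
    (ff : IsFunctionField E (L0 E K0 (U := U))) {r : U} {h : K0}
    (hr : r ^ 2 = algebraMap K0 U h) (hr0 : r ∉ L0 E K0 (U := U))
    (hc : IsCover (Pool.Agent.L.MM E K0 r)) {m : ℕ}
    {b : Place E (L0 E K0 (U := U))} (hb : BPl h b) {Q : Place E (NX E K0 r m)}
    (hQ : OverPl b Q) : ∃ T : U ≃+* U, AuE E K0 T ∧ T r = -r ∧ Moves T _ Q Q := by
  have hgal : IsGalois (Pool.Agent.L.MM E K0 r) U := hc.gal
  obtain ⟨T0, hT0, hT0r⟩ := exists_neg59 (E := E) hr hr0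
  have hs1 : ∀ x ∈ NX E K0 r m, T0 x ∈ NX E K0 r m := map_NX59 hr hT0.au
  have hs2 : ∀ x ∈ NX E K0 r m, T0⁻¹ x ∈ NX E K0 r m := map_NX59 hr hT0.inv.au
  obtain ⟨Q1, hQ1⟩ := exists_im hs1 hs2 (fun e => ⟨e, hT0.inv.fixE e⟩) Q
  have hbQ1 : OverPl b Q1 := by
    intro x hx hx'
    have h1 : T0⁻¹ x = x := hT0.inv.onL0 x hx
    have h2 : T0 x = x := hT0.onL0 x hx
    have h3 := hQ x hx hx'
    have h4 := hQ1 x hx' (hs1 x hx')
    have h5 : (⟨T0 x, hs1 x hx'⟩ : NX E K0 r m) = ⟨x, hx'⟩ := Subtype.ext h2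
    rw [h5] at h4
    exact h3.trans h4
  obtain ⟨W, hW⟩ := over59 Q
  obtain ⟨W1, hW1⟩ := over59 Q1
  obtain ⟨T1, hT1, hm⟩ := conj59 (L := Pool.Agent.L.MM E K0 r) MM_le_NX Q1 Q (fun x hx => by
    rw [hW _ (MM_le_NX hx), hW1 _ (MM_le_NX hx)]
    refine unique59 ff hr hr0 hb (fun z hz => ?_) (fun z hz => ?_) hx
    · exact (hbQ1 z hz (L0_le_NX59 hz)).trans (hW1 z _)
    · exact (hQ z hz (L0_le_NX59 hz)).trans (hW z _))
  have hT1E : AuE E K0 T1 := auE59 fun x hx => hT1 x (L0_le_MM hx)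
  refine ⟨T1 * T0, hT1E.mul hT0, ?_, moves_mul59 hs1 hQ1 hm⟩
  show T1 (T0 r) = -r
  rw [hT0r, map_neg, hT1 r rMM59]

/-- finitely many places over a place of `L0` -/
theorem finite59 [IsGalois (L0 E K0 (U := U)) U] {r : U} {h : K0}
    (hr : r ^ 2 = algebraMap K0 U h) {m : ℕ} (hF : FGL E K0 (NX E K0 r m))
    (b : Place E (L0 E K0 (U := U))) :
    {Q : Place E (NX E K0 r m) | OverPl b Q}.Finite := by
  classical
  by_cases hne : ∃ Q0 : Place E (NX E K0 r m), OverPl b Q0
  · obtain ⟨Q0, hQ0⟩ := hne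
    obtain ⟨Z, hZ⟩ := hF
    have hex : ∀ Q : {Q : Place E (NX E K0 r m) | OverPl b Q},
        ∃ T : U ≃+* U, (∀ x ∈ L0 E K0 (U := U), T x = x) ∧ Moves T _ Q0 Q.1 := by
      intro Q
      refine conj59 (L := L0 E K0 (U := U)) L0_le_NX59 Q0 Q.1 (fun x hx => ?_)
      exact (hQ0 x hx (L0_le_NX59 hx)).symm.trans (Q.2 x hx (L0_le_NX59 hx))
    choose T hT1 hT2 using hex
    let R : Finset U := Z.biUnion fun z =>
      ((minpoly (L0 E K0 (U := U)) z).map (algebraMap (L0 E K0 (U := U)) U)).roots.toFinset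
    have hR : ∀ (Q : {Q : Place E (NX E K0 r m) | OverPl b Q}), ∀ z ∈ Z, T Q z ∈ R := by
      intro Q z hz
      refine Finset.mem_biUnion.2 ⟨z, hz, ?_⟩
      have hint : IsIntegral (L0 E K0 (U := U)) z := Algebra.IsIntegral.isIntegral z
      rw [Multiset.mem_toFinset, Polynomial.mem_roots
        (Polynomial.map_ne_zero (minpoly.ne_zero hint)), Polynomial.IsRoot.def,
        Polynomial.eval_map_algebraMap]
      let τ : U →ₐ[L0 E K0 (U := U)] U :=
        { toRingHom := (T Q : U →+* U), commutes' := fun x => hT1 Q x x.2 }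
      have h1 : τ z = T Q z := rfl
      rw [← h1, Polynomial.aeval_algHom_apply, minpoly.aeval, map_zero]
    let g : {Q : Place E (NX E K0 r m) | OverPl b Q} → (Z → R) :=
      fun Q z => ⟨T Q z, hR Q z z.2⟩
    have hg : Function.Injective g := by
      intro Q Q' hQQ
      apply Subtype.ext
      -- the automorphisms agree on the level
      let N' : IntermediateField E U :=
        { carrier := {x | T Q x = T Q' x}
          mul_mem' := fun {a b} ha hb => by
            show T Q (a * b) = T Q' (a * b)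
            rw [map_mul, map_mul]
            exact congrArg₂ (· * ·) ha hb
          add_mem' := fun {a b} ha hb => by
            show T Q (a + b) = T Q' (a + b)
            rw [map_add, map_add]
            exact congrArg₂ (· + ·) ha hb
          algebraMap_mem' := fun e => by
            show T Q (algebraMap E U e) = T Q' (algebraMap E U e)
            rw [hT1 Q _ ((L0 E K0 (U := U)).algebraMap_mem e),
              hT1 Q' _ ((L0 E K0 (U := U)).algebraMap_mem e)]
          inv_mem' := fun a ha => by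
            show T Q a⁻¹ = T Q' a⁻¹
            rw [map_inv₀, map_inv₀]
            exact congrArg _ ha }
      have hle : NX E K0 r m ≤ N' := by
        refine hZ N' (fun x hx => ?_) (fun z hz => ?_)
        · show T Q x = T Q' x
          rw [hT1 Q x hx, hT1 Q' x hx]
        · have h1 := congrFun hQQ ⟨z, hz⟩
          exact congrArg Subtype.val h1
      have hE : AuE E K0 (T Q) := auE59 (hT1 Q)
      have hs : ∀ x ∈ NX E K0 r m, (T Q).symm x ∈ NX E K0 r m := map_NX59 hr hE.inv.au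
      have h2 : Moves (T Q) _ Q0 Q'.1 := by
        intro x hx hx'
        have h3 : T Q x = T Q' x := hle hx
        have h4 := hT2 Q' x hx (by rw [← h3]; exact hx')
        have h5 : (⟨T Q x, hx'⟩ : NX E K0 r m) = ⟨T Q' x, by rw [← h3]; exact hx'⟩ :=
          Subtype.ext h3
        rw [h5]
        exact h4
      exact moves_unique hs (hT2 Q) h2
    have hfin : Finite {Q : Place E (NX E K0 r m) | OverPl b Q} := Finite.of_injective g hg
    exact Set.toFinite _
  · have h1 : {Q : Place E (NX E K0 r m) | OverPl b Q} = ∅ := by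
      rw [Set.eq_empty_iff_forall_notMem]
      exact fun P hP => hne ⟨P, hP⟩
    rw [h1]
    exact Set.finite_empty

end px

/-- BLOCK PX1 -/
theorem pX1 (hFT : StmtFT) : StmtPX1 := by
  intro k K0 E U _ _ _ _ _ _ _ _ _ _ _ _ h r G n
  have hclE : IsAlgClosed E := G.clE
  have hcE : CharZero E := charZero_of_injective_algebraMap (algebraMap k E).injective
  have hcU : CharZero U := charZero_of_injective_algebraMap (algebraMap k U).injective
  have ff := G.ff
  have hn : Normal K0 U := G.normal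
  have hm : 0 < 2 ^ n := Nat.two_pow_pos n
  have hcL : CharZero (L0 E K0 (U := U)) :=
    charZero_of_injective_algebraMap (algebraMap E (L0 E K0 (U := U))).injective
  have hgal : IsGalois (L0 E K0 (U := U)) U := by
    let aKL : Algebra K0 (L0 E K0 (U := U)) :=
      (RingHom.codRestrict (algebraMap K0 U) (L0 E K0 (U := U)) inL59).toAlgebra
    have sKL : IsScalarTower K0 (L0 E K0 (U := U)) U := IsScalarTower.of_algebraMap_eq fun x => rfl
    have hnL : Normal (L0 E K0 (U := U)) U := Normal.tower_top_of_normal K0 (L0 E K0 (U := U)) U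
    exact ⟨⟩
  have halg : Algebra.IsAlgebraic (L0 E K0 (U := U)) U := inferInstance
  have hF := fGL59 hFT G.cover hm
  refine ⟨fun T hT => map_NX59 G.rsq hT, hF, ff59 ff L0_le_NX59 hF, ?_, ?_, ?_, ?_, ?_⟩
  · intro Q Q' hQQ
    obtain ⟨b, hb⟩ := below59 (N := L0 E K0 (U := U)) Q
    have hb' := (hQQ b).1 hb
    obtain ⟨T, hT, hm⟩ := conj59 (L := L0 E K0 (U := U)) L0_le_NX59 Q Q' (fun x hx =>
      (hb x hx (L0_le_NX59 hx)).symm.trans (hb' x hx (L0_le_NX59 hx)))
    exact ⟨T, auE59 hT, hm⟩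
  · intro T Q hT hTr hQ z hz
    have h1 := eq_on_NX (T' := 1) (fun z hz => hT.onMM hTr z hz)
      (fun w hw => triv59 G.cover G.rsq hm Q hT hTr hQ hw) z hz
    exact h1
  · intro b Q hb hQ
    exact branch59 ff G.rsq G.rnot G.cover hb hQ
  · intro b
    exact ⟨finite59 G.rsq hF b, above59 L0_le_NX59 b⟩
  · intro Q
    exact above59 NX_le_succ Q

end Pool.Agent.TOW
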