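import Pool.Agent.Helper97.TW.Defs
import Pool.Agent.Helper79.L.FR

/-!
# Project TW, block TRV: the valuation rings above a prime are conjugate

A valuation ring `O` of `E` above `v` is the localization `locW Q` of the integral closure `B` of
the valuation ring of `v` at its centre `Q`; the Galois group is transitive on the prime ideals of
`B` above `v` (Mathlib, profinite version).
-/

set_option autoImplicit false

namespace Pool.Agent.TW

open NumberField IsDedekindDomain Pool.Agent.L Pool.Agent.Helper91.Sect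
open Pool.Agent.HG (Pr OV)

section

variable {k E : Type} [Field k] [Field E] [Algebra k E] {O₀ : ValuationSubring k}
  {O : ValuationSubring E}

/-- elements which are integral over a subring of `O` are in `O` -/
theorem int_mem (h : ∀ x ∈ O₀, algebraMap k E x ∈ O) {z : E} (hz : IsIntegral O₀ z) : z ∈ O := by
  let φ : O₀ →+* O := ((algebraMap k E).comp O₀.subtype).codRestrict O.toSubring fun x => h x x.2
  have h1 : IsIntegral O z := by
    obtain ⟨p, hp, hpz⟩ := hz
    refine ⟨p.map φ, hp.map φ, ?_⟩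
    rw [Polynomial.eval₂_map]
    exact hpz
  have h2 := (Valuation.valuationSubring.integers O.valuation).mem_of_integral (x := z) (by
    rwa [ValuationSubring.valuationSubring_valuation])
  rwa [Valuation.mem_integer_iff, ValuationSubring.valuation_le_one_iff] at h2

/-- the centre of `O` on the integral closure -/
def ctr (h : ∀ x ∈ O₀, algebraMap k E x ∈ O) : Ideal (integralClosure O₀ E) :=
  (IsLocalRing.maximalIdeal O).comap
    ((integralClosure O₀ E).val.toRingHom.codRestrict O.toSubring fun b => int_mem h b.2)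

theorem mem_ctr (h : ∀ x ∈ O₀, algebraMap k E x ∈ O) (b : integralClosure O₀ E) :
    b ∈ ctr h ↔ (b : E) ∈ O.nonunits := by
  rw [ctr, Ideal.mem_comap]
  exact ValuationSubring.coe_mem_nonunits_iff.symm

instance (h : ∀ x ∈ O₀, algebraMap k E x ∈ O) : (ctr h).IsPrime :=
  Ideal.comap_isPrime _ _

/-- `O` is the localization at its centre. -/
theorem mem_iff_locW [Algebra.IsAlgebraic k E] (h : ∀ x ∈ O₀, algebraMap k E x ∈ O) (z : E) :
    z ∈ O ↔ z ∈ locW (ctr h) := by
  have key : ∀ w : E, w ∈ locW (ctr h) → w ∈ O := by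
    rintro w ⟨s, hs, hw⟩
    rw [mem_ctr, ValuationSubring.mem_nonunits_iff, not_lt] at hs
    have h1 := int_mem h hw
    rw [← ValuationSubring.valuation_le_one_iff, map_mul] at h1
    rw [← ValuationSubring.valuation_le_one_iff]
    calc O.valuation w = 1 * O.valuation w := (one_mul _).symm
      _ ≤ O.valuation (s : E) * O.valuation w := by gcongr
      _ ≤ 1 := h1
  refine ⟨fun hz => ?_, key z⟩
  by_contra hcon
  have hz0 : z ≠ 0 := by
    rintro rfl
    exact hcon (locW (ctr h)).zero_mem
  obtain ⟨s, hs, hw⟩ := ((locW (ctr h)).mem_or_inv_mem z).resolve_left hcon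
  let b : integralClosure O₀ E := ⟨_, hw⟩
  have hb : b ∈ ctr h := by
    by_contra hb
    apply hcon
    refine ⟨b, hb, ?_⟩
    have h1 : (b : E) * z = s := by
      change (s : E) * z⁻¹ * z = s
      rw [mul_assoc, inv_mul_cancel₀ hz0, mul_one]
    rw [h1]
    exact s.2
  apply hs
  rw [mem_ctr, ValuationSubring.mem_nonunits_iff] at hb ⊢
  have h1 : (s : E) = (b : E) * z := by
    change (s : E) = (s : E) * z⁻¹ * z
    rw [mul_assoc, inv_mul_cancel₀ hz0, mul_one]
  rw [h1, map_mul]
  have h2 := (O.valuation_le_one_iff z).2 hz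
  calc O.valuation (b : E) * O.valuation z ≤ O.valuation (b : E) * 1 := by gcongr
    _ = O.valuation (b : E) := mul_one _
    _ < 1 := hb

variable [IsGalois k E]

/-- transport of the localizations -/
theorem map_locW (P Q : Ideal (integralClosure O₀ E)) [P.IsPrime] [Q.IsPrime] {σ : E ≃ₐ[k] E}
    (hσ : ∀ b : integralClosure O₀ E, σ • b ∈ Q ↔ b ∈ P) (z : E) :
    σ z ∈ locW Q ↔ z ∈ locW P := by
  have key : ∀ (P Q : Ideal (integralClosure O₀ E)) [P.IsPrime] [Q.IsPrime] (τ : E ≃ₐ[k] E),
      (∀ b : integralClosure O₀ E, τ • b ∈ Q ↔ b ∈ P) → ∀ z, z ∈ locW P → τ z ∈ locW Q := by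
    rintro P Q _ _ τ hτ z ⟨s, hs, hint⟩
    refine ⟨τ • s, fun h => hs ((hτ s).1 h), ?_⟩
    have h1 : ((τ • s : integralClosure O₀ E) : E) * τ z = τ (s * z) := by
      rw [coe_smulB, map_mul]
    rw [h1]
    exact (τ • (⟨_, hint⟩ : integralClosure O₀ E)).2
  refine ⟨fun h => ?_, key P Q σ hσ z⟩
  have h2 := key Q P σ⁻¹ (fun b => by rw [← hσ (σ⁻¹ • b), smul_inv_smul]) _ h
  have h3 : (σ⁻¹) (σ z) = z := by
    change (σ⁻¹ * σ) z = z
    rw [inv_mul_cancel]; rfl
  rwa [h3] at h2

end

/-- **BLOCK TRV.** -/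
theorem trv : StmtTRV := by
  intro k E _ _ _ _ _ _ v O O' hO hO'
  have hch : CharZero E := charZero_of_injective_algebraMap (algebraMap k E).injective
  have hgal : IsGalois k E := by
    have h1 : IsAlgClosure k E := ⟨inferInstance, inferInstance⟩
    exact ⟨⟩
  have h1 : ∀ x ∈ OV v, algebraMap k E x ∈ O := fun x hx => (hO x).2 hx
  have h1' : ∀ x ∈ OV v, algebraMap k E x ∈ O' := fun x hx => (hO' x).2 hx
  have key : ∀ (O : ValuationSubring E), OverV v O → ∀ x : k,
      algebraMap k E x ∈ O.nonunits ↔ v.valuation k x < 1 := by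
    intro O hO x
    rw [ValuationSubring.mem_nonunits_iff_or, ← map_inv₀, hO, map_eq_zero, map_inv₀]
    by_cases hx : x = 0
    · simp [hx]
    · have h2 : v.valuation k x ≠ 0 := by simpa using hx
      rw [inv_le_one₀ (zero_lt_iff.2 h2)]
      simp [hx]
  obtain ⟨g, -, hg⟩ := exists_conj (⊤ : Subgroup (E ≃ₐ[k] E)) isClosed_univ (ctr h1) (ctr h1')
    (fun b hb => by
      have h2 : (b : E) ∈ (⊥ : IntermediateField k E) := by
        rw [InfiniteGalois.mem_bot_iff_fixed]
        exact fun σ => congrArg Subtype.val (hb σ trivial)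
      obtain ⟨x, hx⟩ := IntermediateField.mem_bot.1 h2
      rw [mem_ctr, mem_ctr, ← hx, key O hO, key O' hO'])
  refine ⟨g, fun z => ?_⟩
  rw [mem_iff_locW h1', mem_iff_locW h1]
  exact map_locW _ _ hg z

end Pool.Agent.TW
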